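import Pool.Agent.H.MP_1ce9e9_gt.C

set_option autoImplicit false

/-! Planarisation for indexed unit-weight segments, and a chain with a self-link. -/

namespace Pool.Agent.H.MP_b67b84_gt

open Finset Pool.Agent.H.MP_1ce9e9_gt

open Classical in
theorem planar1 {ι : Type} (I : Finset ι) (f g : ι → ℂ) (hne : ∀ i ∈ I, f i ≠ g i)
    (hno : ∀ i ∈ I, ∀ j ∈ I, ∀ x y, x ≠ y → x ∈ segment ℝ (f i) (g i) → y ∈ segment ℝ (f i) (g i) →
      x ∈ segment ℝ (f j) (g j) → y ∈ segment ℝ (f j) (g j) → i = j) :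
    ∃ (V : Finset ℂ) (G : SimpleGraph ℂ),
      (∀ i ∈ I, f i ∈ V ∧ g i ∈ V) ∧
      (∀ a b, G.Adj a b → a ∈ V ∧ b ∈ V ∧
        ∃ i ∈ I, a ∈ segment ℝ (f i) (g i) ∧ b ∈ segment ℝ (f i) (g i)) ∧
      (∀ a b c d, G.Adj a b → G.Adj c d → ¬ ((a = c ∧ b = d) ∨ (a = d ∧ b = c)) →
        ∀ x ∈ segment ℝ a b ∩ segment ℝ c d, (x = a ∨ x = b) ∧ (x = c ∨ x = d)) ∧
      (∀ a b v, G.Adj a b → v ∈ V → v ∈ segment ℝ a b → v = a ∨ v = b) ∧
      (∀ v ∈ V, ∑ w ∈ V.filter (fun w => G.Adj v w), un (w - v) =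
        ∑ i ∈ I, (if f i = v then un (g i - f i) else 0) +
        ∑ i ∈ I, (if g i = v then un (f i - g i) else 0)) ∧
      (∀ v ∈ V, (I.filter (fun i => f i = v)).card ≤ (V.filter (fun w => G.Adj v w)).card ∧
        (I.filter (fun i => g i = v)).card ≤ (V.filter (fun w => G.Adj v w)).card) ∧
      (∀ v ∈ V, (∀ i ∈ I, f i ≠ v ∧ g i ≠ v) → 3 ≤ (V.filter (fun w => G.Adj v w)).card) ∧
      (∀ v ∈ V, ∃ i ∈ I, G.Reachable v (f i)) ∧ (∀ i ∈ I, G.Reachable (f i) (g i)) := by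
  obtain ⟨φ, h1, h2⟩ : ∃ φ : ι ⊕ ι → ℂ × ℂ, (∀ i, φ (Sum.inl i) = (f i, g i)) ∧
      ∀ i, φ (Sum.inr i) = (g i, f i) := ⟨Sum.elim (fun i => (f i, g i)) fun i => (g i, f i),
        fun _ => rfl, fun _ => rfl⟩
  have hl := fun i => left_mem_segment ℝ (f i) (g i)
  have hr := fun i => right_mem_segment ℝ (f i) (g i)
  have hI : Set.InjOn φ (I.disjSum I : Finset (ι ⊕ ι)) := by
    rintro (i | i) hi (j | j) hj e <;> simp only [mem_coe, inl_mem_disjSum, inr_mem_disjSum] at hi hj <;>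
      simp only [h1, h2, Prod.mk.injEq] at e
    · rw [hno i hi j hj _ _ (hne i hi) (hl i) (hr i) (e.1 ▸ hl j) (e.2 ▸ hr j)]
    · obtain rfl := hno i hi j hj _ _ (hne i hi) (hl i) (hr i) (e.1 ▸ hr j) (e.2 ▸ hl j)
      exact absurd e.1 (hne i hi)
    · obtain rfl := hno i hi j hj _ _ (hne i hi) (hl i) (hr i) (e.2 ▸ hr j) (e.1 ▸ hl j)
      exact absurd e.2 (hne i hi)
    · rw [hno i hi j hj _ _ (hne i hi) (hl i) (hr i) (e.2 ▸ hl j) (e.1 ▸ hr j)]
  have hE : ∀ e, e ∈ (I.disjSum I).image φ ↔ ∃ i ∈ I, e = (f i, g i) ∨ e = (g i, f i) := by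
    intro e
    rw [mem_image]
    constructor
    · rintro ⟨i | i, hi, rfl⟩
      · exact ⟨i, by simpa using hi, Or.inl (h1 i)⟩
      · exact ⟨i, by simpa using hi, Or.inr (h2 i)⟩
    · rintro ⟨i, hi, rfl | rfl⟩
      · exact ⟨Sum.inl i, by simpa using hi, h1 i⟩
      · exact ⟨Sum.inr i, by simpa using hi, h2 i⟩
  have hS : ∀ e ∈ (I.disjSum I).image φ, ∃ i ∈ I, (e = (f i, g i) ∨ e = (g i, f i)) ∧
      sg e = segment ℝ (f i) (g i) := by
    intro e he
    obtain ⟨i, hi, h⟩ := (hE e).1 he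
    refine ⟨i, hi, h, ?_⟩
    rcases h with rfl | rfl
    · rfl
    · exact segment_symm _ _ _
  have hP : Pre ((I.disjSum I).image φ) (fun _ => 1) := by
    refine ⟨fun e he => ?_, fun _ _ => rfl, fun _ _ => one_ne_zero, fun e he => ?_, ?_⟩
    · obtain ⟨i, hi, rfl | rfl⟩ := (hE e).1 he
      · exact (hE _).2 ⟨i, hi, Or.inr rfl⟩
      · exact (hE _).2 ⟨i, hi, Or.inl rfl⟩
    · obtain ⟨i, hi, rfl | rfl⟩ := (hE e).1 he
      · exact hne i hi
      · exact (hne i hi).symm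
    · intro e he e' he' x y hxy a1 a2 a3 a4
      obtain ⟨i, hi, b1, b2⟩ := hS e he
      obtain ⟨j, hj, c1, c2⟩ := hS e' he'
      rw [b2] at a1 a2
      rw [c2] at a3 a4
      obtain rfl := hno i hi j hj x y hxy a1 a2 a3 a4
      rcases b1 with rfl | rfl <;> rcases c1 with rfl | rfl <;> simp
  obtain ⟨V, μ, p1, p2, p3, p4, p5, p6, p7, p8, p9, p10⟩ := planarize hP
  obtain ⟨G, hG⟩ : ∃ G : SimpleGraph ℂ, G.Adj = fun a b => μ a b ≠ 0 :=
    ⟨{ Adj := fun a b => μ a b ≠ 0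
       symm := ⟨fun a b h => by rw [p2]; exact h⟩
       loopless := ⟨fun a h => (p3 a a h).1 rfl⟩ }, rfl⟩
  have m1 := fun i hi => (hE _).2 ⟨i, hi, Or.inl rfl⟩
  have m2 := fun i hi => (hE _).2 ⟨i, hi, Or.inr rfl⟩
  have hV : ∀ v, V.filter (fun w => G.Adj v w) = V.filter (fun w => μ v w ≠ 0) := fun v => by
    ext w; simp only [mem_filter, hG]
  refine ⟨V, G, fun i hi => ⟨p1 _ (m1 i hi), p1 _ (m2 i hi)⟩, ?_, hG ▸ p4, hG ▸ p5, ?_, ?_, ?_, ?_, ?_⟩
  · intro a b h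
    rw [hG] at h
    obtain ⟨-, c1, c2, e, he, -, c3, c4⟩ := p3 a b h
    obtain ⟨i, hi, -, b2⟩ := hS e he
    exact ⟨c1, c2, i, hi, b2 ▸ c3, b2 ▸ c4⟩
  · intro v hv
    have := p6 v hv
    rw [sum_filter (s := (I.disjSum I).image φ), sum_image hI, sum_disjSum] at this
    simp only [h1, h2, Nat.cast_one, one_mul] at this
    rw [hV]
    refine Eq.trans (sum_congr rfl fun w hw => ?_) (this.trans ?_)
    · obtain ⟨-, -, -, e, -, c, -⟩ := p3 v w (mem_filter.1 hw).2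
      rw [c]; simp
    · congr 1 <;> refine sum_congr rfl fun i _ => ?_ <;> split_ifs with hh <;> simp [hh]
  · intro v hv
    rw [hV]
    constructor <;> refine le_trans ?_ (p7 v hv)
    · refine card_le_card_of_injOn (fun i => φ (Sum.inl i)) (fun i hi => ?_) fun i hi j hj e => ?_
      · simp only [coe_filter, Set.mem_setOf_eq, h1] at hi ⊢
        exact ⟨m1 i hi.1, hi.2⟩
      · simp only [coe_filter, Set.mem_setOf_eq] at hi hj
        exact Sum.inl_injective (hI (by simpa using hi.1) (by simpa using hj.1) e)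
    · refine card_le_card_of_injOn (fun i => φ (Sum.inr i)) (fun i hi => ?_) fun i hi j hj e => ?_
      · simp only [coe_filter, Set.mem_setOf_eq, h2] at hi ⊢
        exact ⟨m2 i hi.1, hi.2⟩
      · simp only [coe_filter, Set.mem_setOf_eq] at hi hj
        exact Sum.inr_injective (hI (by simpa using hi.1) (by simpa using hj.1) e)
  · intro v hv hn
    rw [hV]
    refine p8 v hv fun e he => ?_
    obtain ⟨i, hi, rfl | rfl⟩ := (hE e).1 he
    · exact (hn i hi).1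
    · exact (hn i hi).2
  · intro v hv
    obtain ⟨e, he, h⟩ := p9 v hv
    obtain ⟨i, hi, -, b2⟩ := hS e he
    refine ⟨i, hi, (SimpleGraph.reachable_iff_reflTransGen _ _).2 (hG ▸ p10 _ (m2 i hi) v hv ?_)⟩
    rw [b2, segment_symm] at h
    exact h
  · intro i hi
    exact (SimpleGraph.reachable_iff_reflTransGen _ _).2
      (hG ▸ p10 _ (m1 i hi) _ (p1 _ (m1 i hi)) (hl i))

theorem chain2 {lo q hi : ℝ} (l1 : lo ≤ q) (l3 : q ≤ hi) (F : ℝ → ℝ → ℝ) (c : ℝ → ℝ)
    (kF : ∀ b, lo ≤ b → Continuous fun a => F a b) (mF : ∀ b, lo ≤ b → StrictMono fun a => F a b)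
    (aF : ∀ a b b', lo ≤ a → lo ≤ b → b < b' → F a b' < F a b)
    (k : Continuous c) (a : Antitone c)
    (h1 : 2 * F lo lo ≤ c lo) (h2 : c q < F q q + F q hi) (h3 : F q lo ≤ c q) (h4 : c hi ≤ F hi q)
    (n : ℕ) :
    ∃ x : ℕ → ℝ, (∀ j, lo ≤ x j ∧ x j ≤ hi) ∧ (∀ j ≤ n, x j < x (j + 1)) ∧
      F (x (n + 1)) (x n) = c (x (n + 1)) ∧
      ∀ j ≤ n, F (x j) (x (j - 1)) + F (x j) (x (j + 1)) = c (x j) := by
  have lh : lo ≤ hi := by linarith
  haveI : Fact (lo ≤ hi) := ⟨lh⟩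
  have aF' : ∀ a b b', lo ≤ a → lo ≤ b → b ≤ b' → F a b' ≤ F a b := fun a b b' e1 e2 e3 => by
    rcases eq_or_lt_of_le e3 with rfl | e3
    · exact le_rfl
    · exact (aF a b b' e1 e2 e3).le
  have mn : ∀ y : Set.Icc lo hi, lo ≤ min (y : ℝ) q := fun y => le_min y.2.1 l1
  obtain ⟨T1, v1, v2⟩ := rootfun (lo := lo) (hi := hi) (fun x y _ => F x (min y q) - c x) l1 l3 le_rfl
    (fun y _ => (kF _ (mn y)).sub k)
    (fun y _ s t hst => by have := mF _ (mn y) hst; have := a hst.le; beta_reduce at *; linarith)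
    (fun x y z y' z' hy _ => by
      have := aF' x _ _ x.2.1 (mn y) (min_le_min_right q (hy : (y : ℝ) ≤ y')); beta_reduce; linarith)
    (fun y _ => by have := aF' q _ _ l1 le_rfl (mn y); beta_reduce; linarith)
    (fun y _ => by have := aF' hi _ _ lh (mn y) (min_le_right _ q); beta_reduce; linarith)
  have hq : ∀ y z : Set.Icc lo hi, 0 < F q (min y q) + F q z - c q := fun y z => by
    have := aF' q _ _ l1 (mn y) (min_le_right _ q)
    have := aF' q _ _ l1 z.2.1 z.2.2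
    linarith
  obtain ⟨T, t1, t2⟩ := rootfun (lo := lo) (hi := hi)
    (fun x y z => F x (min y q) + F x z - c x) le_rfl l1 l3
    (fun y z => ((kF _ (mn y)).add (kF _ z.2.1)).sub k)
    (fun y z s t hst => by
      have := mF _ (mn y) hst; have := mF _ z.2.1 hst; have := a hst.le; beta_reduce at *; linarith)
    (fun x y z y' z' hy hz => by
      have := aF' x _ _ x.2.1 (mn y) (min_le_min_right q (hy : (y : ℝ) ≤ y'))
      have := aF' x _ _ x.2.1 z.2.1 (hz : (z : ℝ) ≤ z'); beta_reduce; linarith)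
    (fun y z => by
      have := aF' lo _ _ le_rfl le_rfl (mn y); have := aF' lo _ _ le_rfl le_rfl z.2.1
      beta_reduce; linarith)
    (fun y z => (hq y z).le)
  have tq : ∀ y z, (T y z : ℝ) < q := fun y z => lt_of_le_of_ne (t1 y z).2.1 fun hh => by
    have := (t1 y z).2.2
    rw [hh] at this
    exact (hq y z).ne' this
  obtain ⟨g, g1, g2⟩ : ∃ g : (ℕ → Set.Icc lo hi) → ℕ → Set.Icc lo hi,
      (∀ x, ∀ j ≤ n, g x j = T (x (j - 1)) (x (j + 1))) ∧ ∀ x j, n < j → g x j = T1 (x n) (x n) :=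
    ⟨fun x j => if j ≤ n then T (x (j - 1)) (x (j + 1)) else T1 (x n) (x n),
      fun x j hj => if_pos hj, fun x j hj => if_neg (not_le.2 hj)⟩
  have gm : ∀ x, Monotone x → Monotone (g x) := by
    intro x hx
    refine monotone_nat_of_le_succ fun j => ?_
    rcases lt_trichotomy j n with h | h | h
    · rw [g1 x j h.le, g1 x (j + 1) h]
      exact t2 _ _ _ _ (hx (by omega)) (hx (by omega))
    · rw [g1 x j h.le, g2 x (j + 1) (by omega)]
      exact ((tq _ _).le.trans (v1 _ _).1 : _ ≤ (T1 (x n) (x n) : ℝ))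
    · rw [g2 x j h, g2 x (j + 1) (by omega)]
  let G : (ℕ →o Set.Icc lo hi) →o (ℕ →o Set.Icc lo hi) :=
    ⟨fun x => ⟨g x, gm x x.monotone⟩, fun x y hxy j => by
      change g x j ≤ g y j
      rcases le_or_gt j n with h | h
      · rw [g1 x j h, g1 y j h]; exact t2 _ _ _ _ (hxy _) (hxy _)
      · rw [g2 x j h, g2 y j h]; exact v2 _ _ _ _ (hxy _) (hxy _)⟩
  obtain ⟨x, hx⟩ : ∃ x : ℕ →o Set.Icc lo hi, g x = x :=
    ⟨G.lfp, congrArg (fun y : ℕ →o Set.Icc lo hi => (y : ℕ → Set.Icc lo hi)) G.map_lfp⟩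
  have e1 : ∀ j ≤ n, x j = T (x (j - 1)) (x (j + 1)) := fun j hj => by rw [← g1 x j hj, hx]
  have e2 : x (n + 1) = T1 (x n) (x n) := by rw [← g2 x (n + 1) (by omega), hx]
  have xq : ∀ j ≤ n, (x j : ℝ) < q := fun j hj => by rw [e1 j hj]; exact tq _ _
  have b1 : ∀ j ≤ n, F (x j) (x (j - 1)) + F (x j) (x (j + 1)) = c (x j) := by
    intro j hj
    have := (t1 (x (j - 1)) (x (j + 1))).2.2
    rw [← e1 j hj, min_eq_left (xq (j - 1) (by omega)).le] at this
    exact sub_eq_zero.1 this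
  refine ⟨fun j => x j, fun j => (x j).2, ?_, ?_, b1⟩
  · have : ∀ d j, j + d = n → (x j : ℝ) < x (j + 1) := by
      intro d
      induction d with
      | zero =>
        intro j hj
        obtain rfl : j = n := by omega
        have := (v1 (x j) (x j)).1
        rw [← e2] at this
        exact (xq j le_rfl).trans_le this
      | succ d ih =>
        intro j hj
        have ih := ih (j + 1) (by omega)
        refine lt_of_le_of_ne (x.monotone (Nat.le_succ _) : (x j : ℝ) ≤ x (j + 1)) fun hh => ?_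
        have q1 := b1 j (by omega)
        have q2 := b1 (j + 1) (by omega)
        rw [Nat.add_sub_cancel] at q2
        rw [← hh] at q1 q2 ih
        have := aF _ _ _ (x j).2.1 (x j).2.1 ih
        have := aF' _ _ _ (x j).2.1 (x (j - 1)).2.1
          (x.monotone (by omega) : (x (j - 1) : ℝ) ≤ x j)
        linarith
    exact fun j hj => this (n - j) j (by omega)
  · have := (v1 (x n) (x n)).2.2
    rw [← e2, min_eq_left (xq n le_rfl).le] at this
    exact sub_eq_zero.1 this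

end Pool.Agent.H.MP_b67b84_gt
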