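import Pool.Agent.H.MP_b67b84_gt.A

set_option autoImplicit false

/-! Fermat tripods on `a`, `b i`, `1 + i`, and the chain they link. -/

namespace Pool.Agent.H.MP_b67b84_gt

open Finset Pool.Agent.H.MP_1ce9e9_gt

noncomputable def hh (s : ℝ) : ℝ := HH (√3 * s)

lemma hh_eq (s : ℝ) : hh s = s / √(s ^ 2 + 1) := by
  unfold hh HH
  rw [mul_div_cancel_left₀ _ s3p.ne', Real.sin_arctan, add_comm]

lemma hh_mono : StrictMono hh := fun _ _ h => HH_mono (mul_lt_mul_of_pos_left h s3p)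

lemma hh_cont : Continuous hh := HH_cont.comp (by fun_prop)

lemma hh_le {s r : ℝ} (hr : 0 ≤ r) (h : s ^ 2 ≤ r ^ 2 * (s ^ 2 + 1)) : hh s ≤ r := by
  rw [hh_eq, div_le_iff₀ (Real.sqrt_pos.2 (by positivity))]
  refine abs_le_of_sq_le_sq' ?_ (by positivity) |>.2
  rw [mul_pow, Real.sq_sqrt (by positivity)]
  exact h

lemma le_hh {s r : ℝ} (hs : 0 ≤ s) (h : r ^ 2 * (s ^ 2 + 1) ≤ s ^ 2) : r ≤ hh s := by
  rw [hh_eq, le_div_iff₀ (Real.sqrt_pos.2 (by positivity))]
  refine abs_le_of_sq_le_sq' ?_ hs |>.2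
  rw [mul_pow, Real.sq_sqrt (by positivity)]
  exact h

lemma s3a : 1732 / 1000 < √3 := Real.lt_sqrt_of_sq_lt (by norm_num)

lemma s3b : √3 < 17321 / 10000 := by rw [Real.sqrt_lt' (by norm_num)]; norm_num

/-- the slope parameter of the tripod -/
noncomputable def ss (a b : ℝ) : ℝ := (2 * a + √3 - 1 - √3 * b) / (√3 + 1 + b)

lemma ss_add {a b : ℝ} (hb : 0 ≤ b) : ss a b + √3 = 2 * (√3 + 1 + a) / (√3 + 1 + b) := by
  have := s3p
  unfold ss
  field_simp
  linear_combination s3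

lemma ss_mul {a b : ℝ} (ha : 0 ≤ a) (hb : 0 ≤ b) : (ss a b + √3) * (ss b a + √3) = 4 := by
  have := s3p
  rw [ss_add ha, ss_add hb]
  field_simp
  ring

lemma ss_lt {a a' b : ℝ} (hb : 0 ≤ b) (h : a < a') : ss a b < ss a' b := by
  have := s3p
  exact div_lt_div_of_pos_right (by linarith) (by positivity)

lemma ss_lt' {a b b' : ℝ} (ha : 0 ≤ a) (hb : 0 ≤ b) (h : b < b') : ss a b' < ss a b := by
  have := s3p
  have h1 := ss_add (a := a) hb
  have h2 := ss_add (a := a) (hb.trans h.le)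
  have := div_lt_div_of_pos_left (a := 2 * (√3 + 1 + a)) (b := √3 + 1 + b') (c := √3 + 1 + b)
    (by positivity) (by positivity) (by linarith)
  linarith

lemma ss_le {a b r : ℝ} (hb : 0 ≤ b) (h : 2 * a + √3 - 1 - √3 * b ≤ r * (√3 + 1 + b)) :
    ss a b ≤ r := (div_le_iff₀ (by have := s3p; positivity)).2 h

lemma le_ss {a b r : ℝ} (hb : 0 ≤ b) (h : r * (√3 + 1 + b) ≤ 2 * a + √3 - 1 - √3 * b) :
    r ≤ ss a b := (le_div_iff₀ (by have := s3p; positivity)).2 h

lemma ss_bd {a b : ℝ} (ha : 39 / 100 ≤ a ∧ a ≤ 67 / 100) (hb : 39 / 100 ≤ b ∧ b ≤ 67 / 100) :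
    1 / 10 ≤ ss a b ∧ ss a b ≤ 9 / 20 := by
  have := s3a; have := s3b
  exact ⟨le_ss (by linarith) (by nlinarith), ss_le (by linarith) (by nlinarith)⟩

lemma ss_flip {a b a' b' : ℝ} (ha : 0 ≤ a) (hb : 0 ≤ b) (ha' : 0 ≤ a') (hb' : 0 ≤ b')
    (h : ss a b < ss a' b') : ss b' a' < ss b a := by
  have := s3p
  have h1 := ss_mul ha hb
  have h2 := ss_mul ha' hb'
  have p1 : 0 < ss a b + √3 := by rw [ss_add hb]; positivity
  have p2 : 0 < ss b' a' + √3 := by rw [ss_add ha']; positivity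
  by_contra hn
  push Not at hn
  nlinarith

lemma chain3 (n : ℕ) :
    ∃ x : ℕ → ℝ, (∀ j, 39 / 100 ≤ x j ∧ x j ≤ 67 / 100) ∧ (∀ j ≤ n, x j < x (j + 1)) ∧
      hh (ss (x (n + 1)) (x n)) = hh (1 - x (n + 1)) ∧
      (∀ j ≤ n, hh (ss (x j) (x (j - 1))) + hh (ss (x j) (x (j + 1))) = hh (1 - x j)) ∧
      ∀ i ≤ n + 1, ∀ j ≤ n + 1, ∀ i' ≤ n + 1, ∀ j' ≤ n + 1, (j = i - 1 ∨ i = j - 1) →
        (j' = i' - 1 ∨ i' = j' - 1) → ss (x i) (x j) = ss (x i') (x j') → i = i' ∧ j = j' := by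
  have := s3a; have := s3b
  obtain ⟨x, x1, x2, x3, x4⟩ := chain2 (lo := 39 / 100) (q := 55 / 100) (hi := 67 / 100)
    (by norm_num) (by norm_num) (fun a b => hh (ss a b)) (fun a => hh (1 - a))
    (fun b _ => hh_cont.comp (by unfold ss; fun_prop))
    (fun b hb a a' h => hh_mono (ss_lt (by linarith) h))
    (fun a b b' ha hb h => hh_mono (ss_lt' (by linarith) (by linarith) h))
    (hh_cont.comp (by fun_prop)) (fun a a' h => hh_mono.monotone (by linarith))
    (by
      have h1 := (hh_mono.monotone (ss_le (a := 39 / 100) (b := 39 / 100) (r := 2682 / 10000)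
        (by norm_num) (by linarith))).trans (hh_le (r := 2595 / 10000) (by norm_num) (by norm_num))
      have h2 := le_hh (s := 1 - 39 / 100) (r := 52 / 100) (by norm_num) (by norm_num)
      beta_reduce; linarith)
    (by
      have h1 := (le_hh (r := 25 / 100) (by norm_num) (by norm_num)).trans (hh_mono.monotone
        (le_ss (a := 55 / 100) (b := 55 / 100) (r := 26 / 100) (by norm_num) (by linarith)))
      have h2 := (le_hh (r := 18 / 100) (by norm_num) (by norm_num)).trans (hh_mono.monotone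
        (le_ss (a := 55 / 100) (b := 67 / 100) (r := 19 / 100) (by norm_num) (by linarith)))
      have h3 := hh_le (s := 1 - 55 / 100) (r := 42 / 100) (by norm_num) (by norm_num)
      beta_reduce; linarith)
    (by
      have h1 := (hh_mono.monotone (ss_le (a := 55 / 100) (b := 39 / 100) (r := 38 / 100)
        (by norm_num) (by linarith))).trans (hh_le (r := 38 / 100) (by norm_num) (by norm_num))
      have h2 := le_hh (s := 1 - 55 / 100) (r := 40 / 100) (by norm_num) (by norm_num)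
      beta_reduce; linarith)
    (by
      have h1 := (le_hh (r := 32 / 100) (by norm_num) (by norm_num)).trans (hh_mono.monotone
        (le_ss (a := 67 / 100) (b := 55 / 100) (r := 34 / 100) (by norm_num) (by linarith)))
      have h3 := hh_le (s := 1 - 67 / 100) (r := 32 / 100) (by norm_num) (by norm_num)
      beta_reduce; linarith) n
  beta_reduce at x3 x4
  have xp : ∀ j, 0 ≤ x j := fun j => by linarith [(x1 j).1]
  have hA : ∀ j ≤ n, ss (x j) (x (j - 1)) < ss (x (j + 1)) (x j) := by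
    intro j
    induction j with
    | zero => exact fun h => ss_lt (xp _) (x2 0 h)
    | succ j ih =>
      intro hj
      have q1 := x4 j (by omega)
      have q2 := x4 (j + 1) hj
      have q3 := hh_mono (ih (by omega))
      have q4 := hh_mono (show 1 - x (j + 1) < 1 - x j by linarith [x2 j (by omega)])
      rw [Nat.add_sub_cancel] at q2 ⊢
      exact ss_flip (xp _) (xp _) (xp _) (xp _) (hh_mono.lt_iff_lt.1 (by linarith))
  have mA : StrictMonoOn (fun j => ss (x j) (x (j - 1))) (Set.Iic (n + 1)) :=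
    strictMonoOn_Iic_of_lt_succ fun j hj => hA j (by omega)
  have iA : ∀ i ≤ n + 1, ∀ j ≤ n + 1, ss (x i) (x (i - 1)) = ss (x j) (x (j - 1)) → i = j :=
    fun i hi j hj e => mA.injOn hi hj e
  have fl : ∀ i j i' j', ss (x i) (x j) = ss (x i') (x j') → ss (x j) (x i) = ss (x j') (x i') := by
    intro i j i' j' e
    rcases lt_trichotomy (ss (x j) (x i)) (ss (x j') (x i')) with h | h | h
    · exact absurd e (ss_flip (xp _) (xp _) (xp _) (xp _) h).ne'
    · exact h
    · exact absurd e (ss_flip (xp _) (xp _) (xp _) (xp _) h).ne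
  have mix : ∀ i ≤ n + 1, ∀ j ≤ n + 1, ss (x i) (x (i - 1)) = ss (x (j - 1)) (x j) → i = 0 ∧ j = 0 := by
    intro i hi j hj e
    have a1 : ss (x 0) (x 0) ≤ ss (x i) (x (i - 1)) := mA.monotoneOn (by simp) hi (Nat.zero_le i)
    have : j = 0 := by
      by_contra h
      have a2 : ss (x 0) (x 0) < ss (x j) (x (j - 1)) := mA (by simp) hj (Nat.pos_of_ne_zero h)
      have := ss_flip (xp _) (xp _) (xp _) (xp _) a2
      linarith
    subst this
    exact ⟨iA i hi 0 hj e, rfl⟩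
  refine ⟨x, x1, x2, x3, x4, ?_⟩
  rintro i hi j hj i' hi' j' hj' (rfl | rfl) (rfl | rfl) e
  · rw [iA i hi i' hi' e]; exact ⟨rfl, rfl⟩
  · obtain ⟨rfl, rfl⟩ := mix i hi j' hj' e; exact ⟨rfl, rfl⟩
  · obtain ⟨rfl, rfl⟩ := mix i' hi' j hj e.symm; exact ⟨rfl, rfl⟩
  · rw [iA j hj j' hj' (fl _ _ _ _ e)]; exact ⟨rfl, rfl⟩

lemma un_rot {r : ℂ} (hr : ‖r‖ = 1) (z : ℂ) : un (r * z) = r * un z := by
  unfold un; rw [norm_mul, hr, one_mul, mul_div_assoc]

lemma un_pair (s : ℝ) : un (s + Complex.I) + un (s - Complex.I) = 2 * (hh s : ℂ) := by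
  have h1 : ‖(s : ℂ) + Complex.I‖ = √(s ^ 2 + 1) := by
    rw [Complex.norm_def, Complex.normSq_apply]; simp [sq]
  have h2 : ‖(s : ℂ) - Complex.I‖ = √(s ^ 2 + 1) := by
    rw [Complex.norm_def, Complex.normSq_apply]; simp [sq]
  unfold un
  rw [h1, h2, hh_eq]
  push_cast
  ring

lemma tripod {a b : ℝ} (ha : 39 / 100 ≤ a ∧ a ≤ 67 / 100) (hb : 39 / 100 ≤ b ∧ b ≤ 67 / 100) :
    ∃ (w : ℂ) (l0 l1 l2 : ℝ), 0 < l0 ∧ 0 < l1 ∧ 0 < l2 ∧ 0 < w.re ∧ w.re < 1 ∧ 0 < w.im ∧ w.im < 1 ∧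
      a - w = l1 * (ss a b - Complex.I) ∧ Complex.I * b - w = l2 * (-1 + Complex.I * ss b a) ∧
      1 + Complex.I - w = l0 * (√3 - ss a b + (√3 * ss a b + 1) * Complex.I) ∧
      un (a - w) + un (Complex.I * b - w) + un (1 + Complex.I - w) = 0 := by
  obtain ⟨s1, s2⟩ := ss_bd ha hb
  obtain ⟨t1, t2⟩ := ss_bd hb ha
  have hm := ss_mul (a := a) (b := b) (by linarith) (by linarith)
  have hd : ss a b * (√3 + 1 + b) = 2 * a + √3 - 1 - √3 * b :=
    div_mul_cancel₀ _ (by have := s3p; linarith)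
  generalize ss a b = s at *
  generalize ss b a = t at *
  have r1 := s3a
  have r3 := s3
  have hst : s * t ≤ 21 / 100 := by nlinarith
  have h0 : 0 < 1 - s * t := by linarith
  obtain ⟨l1, e1⟩ : ∃ l1, l1 * (1 - s * t) = b - a * t := ⟨_, div_mul_cancel₀ _ h0.ne'⟩
  obtain ⟨l2, e2⟩ : ∃ l2, l2 = a - l1 * s := ⟨_, rfl⟩
  have e3 : l1 = b - l2 * t := by rw [e2]; linear_combination e1
  have e4 : l2 * (1 - s * t) = a - b * s := by rw [e2]; linear_combination -s * e1
  have p1 : 0 < l1 := by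
    by_contra h
    nlinarith
  have p2 : l1 < 1 := by
    by_contra h
    nlinarith
  have p3 : 0 < l2 := by
    by_contra h
    nlinarith
  have p4 : l2 < 1 := by
    by_contra h
    nlinarith
  have q0 : 0 < √3 * s + 1 := by nlinarith
  have q1 : 0 < s + √3 := by linarith
  obtain ⟨l0, e0⟩ : ∃ l0, l0 * (√3 * s + 1) = 1 - l1 := ⟨_, div_mul_cancel₀ _ q0.ne'⟩
  have p0 : 0 < l0 := by
    by_contra h
    nlinarith
  have e5 : l0 * (√3 - s) = 1 - l2 := by
    have e6 : t * (s + √3) = 1 - √3 * s := by linear_combination hm - r3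
    have e7 : (1 - l1) * (√3 - s) = (1 - l2) * (√3 * s + 1) := by
      have e8 : b = l1 + l2 * t := by linarith
      have e9 : a = l2 + l1 * s := by linarith
      rw [e8, e9] at hd
      apply mul_left_cancel₀ q1.ne'
      linear_combination -(s + √3) * hd + l2 * (s + √3) * e6 - l2 * √3 * (s + √3) * 0 +
        (l2 * t * (s + √3) * 0) * r3
    apply mul_left_cancel₀ q0.ne'
    linear_combination (√3 - s) * e0 + e7
  have f1 : (a : ℂ) - ⟨l2, l1⟩ = l1 * (s - Complex.I) := by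
    apply Complex.ext <;> simp
    linarith
  have f2 : Complex.I * b - ⟨l2, l1⟩ = l2 * (-1 + Complex.I * t) := by
    apply Complex.ext <;> simp
    linarith
  have f0 : 1 + Complex.I - ⟨l2, l1⟩ = l0 * (√3 - s + (√3 * s + 1) * Complex.I) := by
    apply Complex.ext <;> simp
    · linarith
    · linarith
  refine ⟨⟨l2, l1⟩, l0, l1, l2, p0, p1, p3, p3, p4, p1, p2, f1, f2, f0, ?_⟩
  have g2 : (-1 + Complex.I * t : ℂ) = ((2 / (s + √3) : ℝ) : ℂ) * (rt 2 * (s - Complex.I)) := by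
    have q2 : ((s + √3 : ℝ) : ℂ) ≠ 0 := by exact_mod_cast q1.ne'
    apply mul_left_cancel₀ q2
    rw [← mul_assoc, ← Complex.ofReal_mul, mul_div_cancel₀ _ q1.ne']
    apply Complex.ext <;> simp [rt]
    · ring
    · linear_combination hm - r3
  have g0 : (√3 - s + (√3 * s + 1) * Complex.I : ℂ) = ((2 : ℝ) : ℂ) * (rt 1 * (s - Complex.I)) := by
    apply Complex.ext <;> simp [rt] <;> ring
  rw [f1, f2, f0, g2, g0, un_smul p1, un_smul p3, un_smul p0, un_smul (by positivity),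
    un_smul (by norm_num), un_rot (rt_norm _), un_rot (rt_norm _),
    rt_third (k := 0) (l := 1) (p := 2) (by decide) (by decide) (by decide)]
  simp only [rt, Matrix.cons_val_zero]
  ring

end Pool.Agent.H.MP_b67b84_gt
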