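import Pool.Agent.H.MP_b67b84_gt.B

set_option autoImplicit false

/-! The net with the four corners of a square as unbalanced vertices. -/

namespace Pool.Agent.H.MP_b67b84_gt

open Finset Pool.Agent.H.MP_1ce9e9_gt Complex

noncomputable def r4 : Fin 4 → ℂ := ![1, I, -1, -I]

lemma r4_norm (k : Fin 4) : ‖r4 k‖ = 1 := by fin_cases k <;> simp [r4]

lemma r4_ne (k : Fin 4) : r4 k ≠ 0 := fun h => by simpa [h] using r4_norm k

lemma r4_succ (k : Fin 4) : r4 (k + 1) = r4 k * I := by fin_cases k <;> simp [r4]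

lemma r4_quad {k l : Fin 4} {z w : ℂ} (h1 : 0 < z.re) (h2 : 0 ≤ z.im) (h3 : 0 < w.re) (h4 : 0 ≤ w.im)
    (e : r4 k * z = r4 l * w) : k = l := by
  have e1 := congrArg Complex.re e
  have e2 := congrArg Complex.im e
  fin_cases k <;> fin_cases l <;> simp [r4] at e1 e2 ⊢ <;> linarith

lemma rot_seg {r A B x : ℂ} (h : x ∈ segment ℝ (r * A) (r * B)) :
    ∃ y ∈ segment ℝ A B, x = r * y := by
  obtain ⟨s, h0, h1, rfl⟩ := seg_par h
  exact ⟨_, par_seg h0 h1, by ring⟩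

lemma mid_quad {A B x y : ℂ} (hxy : x ≠ y) (hx : x ∈ segment ℝ A B) (hy : y ∈ segment ℝ A B)
    (h1 : 0 ≤ A.re) (h2 : 0 ≤ A.im) (h3 : 0 < B.re) (h4 : 0 < B.im) :
    0 < (x + y).re ∧ 0 < (x + y).im := by
  obtain ⟨s, s0, s1, rfl⟩ := seg_par hx
  obtain ⟨t, t0, t1, rfl⟩ := seg_par hy
  have : 0 < s + t := by
    by_contra h
    have e1 : s = 0 := by linarith
    have e2 : t = 0 := by linarith
    exact hxy (by rw [e1, e2])
  constructor <;> simp <;> nlinarith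

lemma kap_eq {A B C D x y : ℂ} {l l' κ κ' : ℝ} (hl : l' ≠ 0) (e : B - A = l * (κ + I))
    (e' : D - C = l' * (κ' + I)) (hxy : x ≠ y) (h1 : x ∈ segment ℝ A B) (h2 : y ∈ segment ℝ A B)
    (h3 : x ∈ segment ℝ C D) (h4 : y ∈ segment ℝ C D) : κ = κ' := by
  obtain ⟨s, hs⟩ := col_of hxy h1 h2 h3 h4
  rw [segment_symm] at h3 h4
  obtain ⟨t, ht⟩ := col_of hxy h1 h2 h3 h4
  have : (l' : ℂ) * (κ' + I) = (t - s) * (l * (κ + I)) := by rw [← e, ← e', hs, ht]; ring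
  have e1 := congrArg Complex.re this
  have e2 := congrArg Complex.im this
  simp at e1 e2
  apply mul_left_cancel₀ hl
  rw [e1, e2]; ring

lemma ext_pt {P Q c : ℂ} {R : ℝ} (h1 : ‖P‖ < R) (h2 : ‖Q‖ ≤ R) (e : ‖c‖ = R)
    (hs : c ∈ segment ℝ P Q) : c = Q := by
  obtain ⟨s, t, s0, t0, st, rfl⟩ := hs
  have := norm_add_le (s • P) (t • Q)
  rw [norm_smul, norm_smul, Real.norm_of_nonneg s0, Real.norm_of_nonneg t0, e] at this
  have : s = 0 := by
    by_contra h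
    have := lt_of_le_of_ne s0 (Ne.symm h)
    have e3 : R = s * R + t * R := by rw [← add_mul, st, one_mul]
    nlinarith
  subst this
  have : t = 1 := by linarith
  subst this
  simp

lemma nlt {z : ℂ} (h1 : 0 ≤ z.re) (h2 : z.re < 1) (h3 : 0 ≤ z.im) (h4 : z.im < 1) :
    ‖z‖ < ‖1 + I‖ := by
  rw [Complex.norm_def, Complex.norm_def, Complex.normSq_apply, Complex.normSq_apply]
  apply Real.sqrt_lt_sqrt (by positivity)
  simp
  nlinarith

open Classical in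
theorem net4 (n : ℕ) : ∃ (V : Finset ℂ) (G : SimpleGraph ℂ),
    (∀ k, r4 k * (1 + I) ∈ V) ∧ (∀ a b, G.Adj a b → a ∈ V ∧ b ∈ V) ∧
    (∀ a b c d, G.Adj a b → G.Adj c d → ¬ ((a = c ∧ b = d) ∨ (a = d ∧ b = c)) →
      ∀ x ∈ segment ℝ a b ∩ segment ℝ c d, (x = a ∨ x = b) ∧ (x = c ∨ x = d)) ∧
    (∀ a b v, G.Adj a b → v ∈ V → v ∈ segment ℝ a b → v = a ∨ v = b) ∧
    (∀ v ∈ V, (∀ k, r4 k * (1 + I) ≠ v) → 3 ≤ (V.filter (fun w => G.Adj v w)).card ∧
      ∑ w ∈ V.filter (fun w => G.Adj v w), un (w - v) = 0) ∧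
    (∀ a ∈ V, ∀ b ∈ V, G.Reachable a b) ∧
    (∀ k l, ¬ G.Adj (r4 k * (1 + I)) (r4 l * (1 + I))) ∧
    n < (V.filter (fun v => ∀ k, r4 k * (1 + I) ≠ v)).card := by
  obtain ⟨x, x1, x2, x3, x4, x5⟩ := chain3 n
  have xp : ∀ j, 0 < x j := fun j => by linarith [(x1 j).1]
  have xq : ∀ j, x j < 1 := fun j => by linarith [(x1 j).2]
  have xm : StrictMonoOn x (Set.Iic (n + 1)) :=
    strictMonoOn_Iic_of_lt_succ fun j hj => x2 j (by omega)
  have xi : ∀ i < n + 2, ∀ j < n + 2, x i = x j → i = j :=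
    fun i hi j hj e => xm.injOn (by simp; omega) (by simp; omega) e
  choose w l0 l1 l2 p0 p1 p2 w1 w2 w3 w4 e1 e2 e0 bal using
    fun p : ℕ × ℕ => tripod (x1 p.1) (x1 p.2)
  obtain ⟨L, hL⟩ : ∃ L : Finset (ℕ × ℕ), L = (range (n + 2) ×ˢ range (n + 2)).filter
    fun p => p.2 = p.1 - 1 ∨ p.1 = p.2 - 1 := ⟨_, rfl⟩
  have mL : ∀ p, p ∈ L ↔ p.1 < n + 2 ∧ p.2 < n + 2 ∧ (p.2 = p.1 - 1 ∨ p.1 = p.2 - 1) := by
    intro p; simp [hL, and_assoc]
  obtain ⟨J, hJ⟩ : ∃ J : Finset (Fin 3 × ℕ × ℕ ⊕ Fin 2 × ℕ),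
    J = (univ ×ˢ L).disjSum (univ ×ˢ range (n + 2)) := ⟨_, rfl⟩
  have mJ1 : ∀ t p, Sum.inl (t, p) ∈ J ↔ p ∈ L := by intro t p; simp [hJ]
  have mJ2 : ∀ t j, Sum.inr (t, j) ∈ J ↔ j < n + 2 := by intro t p; simp [hJ]
  obtain ⟨f, f0, f1, f2, f3, f4⟩ : ∃ f : Fin 3 × ℕ × ℕ ⊕ Fin 2 × ℕ → ℂ,
      (∀ p, f (Sum.inl (0, p)) = x p.1) ∧ (∀ p, f (Sum.inl (1, p)) = I * x p.2) ∧
      (∀ p, f (Sum.inl (2, p)) = 1 + I) ∧ (∀ j, f (Sum.inr (0, j)) = x j) ∧
      ∀ j, f (Sum.inr (1, j)) = I * x j :=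
    ⟨Sum.elim (fun z => ![(x z.2.1 : ℂ), I * x z.2.2, 1 + I] z.1)
      fun z => ![(x z.2 : ℂ), I * x z.2] z.1, fun _ => rfl, fun _ => rfl, fun _ => rfl,
      fun _ => rfl, fun _ => rfl⟩
  obtain ⟨g, g0, g1⟩ : ∃ g : Fin 3 × ℕ × ℕ ⊕ Fin 2 × ℕ → ℂ,
      (∀ t p, g (Sum.inl (t, p)) = w p) ∧ ∀ t j, g (Sum.inr (t, j)) = 1 + I :=
    ⟨Sum.elim (fun z => w z.2) fun _ => 1 + I, fun _ _ => rfl, fun _ _ => rfl⟩
  obtain ⟨κ, k0, k1, k2, k3, k4⟩ : ∃ κ : Fin 3 × ℕ × ℕ ⊕ Fin 2 × ℕ → ℝ,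
      (∀ p, κ (Sum.inl (0, p)) = -ss (x p.1) (x p.2)) ∧
      (∀ p, κ (Sum.inl (1, p)) = -1 / ss (x p.2) (x p.1)) ∧
      (∀ p, κ (Sum.inl (2, p)) = (√3 - ss (x p.1) (x p.2)) / (√3 * ss (x p.1) (x p.2) + 1)) ∧
      (∀ j, κ (Sum.inr (0, j)) = 1 - x j) ∧ ∀ j, κ (Sum.inr (1, j)) = 1 / (1 - x j) :=
    ⟨Sum.elim (fun z => ![-ss (x z.2.1) (x z.2.2), -1 / ss (x z.2.2) (x z.2.1),
      (√3 - ss (x z.2.1) (x z.2.2)) / (√3 * ss (x z.2.1) (x z.2.2) + 1)] z.1)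
      fun z => ![1 - x z.2, 1 / (1 - x z.2)] z.1, fun _ => rfl, fun _ => rfl, fun _ => rfl,
      fun _ => rfl, fun _ => rfl⟩
  have cs : ∀ e : Fin 3 × ℕ × ℕ ⊕ Fin 2 × ℕ, (∃ p, e = Sum.inl (0, p)) ∨ (∃ p, e = Sum.inl (1, p)) ∨
      (∃ p, e = Sum.inl (2, p)) ∨ (∃ j, e = Sum.inr (0, j)) ∨ ∃ j, e = Sum.inr (1, j) := by
    rintro (⟨t, p⟩ | ⟨t, j⟩) <;> fin_cases t <;> simp
  have sb := fun i j => ss_bd (x1 i) (x1 j)
  have sp : ∀ i j, 0 < ss (x i) (x j) := fun i j => by linarith [(sb i j).1]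
  have sq : ∀ i j, 0 < √3 * ss (x i) (x j) + 1 := fun i j => by
    have := sp i j; have := s3p; positivity
  have hκ : ∀ e, ∃ l : ℝ, l ≠ 0 ∧ g e - f e = l * (κ e + I) := by
    intro e
    rcases cs e with ⟨p, rfl⟩ | ⟨p, rfl⟩ | ⟨p, rfl⟩ | ⟨j, rfl⟩ | ⟨j, rfl⟩
    · exact ⟨l1 p, (p1 p).ne', by rw [g0, f0, k0]; push_cast; linear_combination -e1 p⟩
    · refine ⟨-(l2 p * ss (x p.2) (x p.1)), (neg_neg_of_pos (mul_pos (p2 p) (sp _ _))).ne, ?_⟩
      have : ((ss (x p.2) (x p.1) : ℝ) : ℂ) ≠ 0 := by exact_mod_cast (sp _ _).ne'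
      rw [g0, f1, k1]; push_cast; field_simp; linear_combination -e2 p
    · refine ⟨-(l0 p * (√3 * ss (x p.1) (x p.2) + 1)),
        (neg_neg_of_pos (mul_pos (p0 p) (sq _ _))).ne, ?_⟩
      have : ((√3 : ℝ) : ℂ) * ss (x p.1) (x p.2) + 1 ≠ 0 := by exact_mod_cast (sq _ _).ne'
      rw [g0, f2, k2]; push_cast; field_simp; linear_combination -e0 p
    · exact ⟨1, one_ne_zero, by rw [g1, f3, k3]; push_cast; ring⟩
    · refine ⟨1 - x j, (sub_pos.2 (xq j)).ne', ?_⟩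
      have : (1 : ℂ) - x j ≠ 0 := by exact_mod_cast (sub_pos.2 (xq j)).ne'
      rw [g1, f4, k4]; push_cast; field_simp; ring
  have b0 : ∀ p, -1 / 2 < κ (Sum.inl (0, p)) ∧ κ (Sum.inl (0, p)) < 0 := fun p => by
    have := sb p.1 p.2; rw [k0]; constructor <;> linarith
  have b1 : ∀ p, κ (Sum.inl (1, p)) < -1 / 2 := fun p => by
    have := sb p.2 p.1; rw [k1, div_lt_iff₀ (sp _ _)]; linarith
  have b2 : ∀ p, 65 / 100 < κ (Sum.inl (2, p)) ∧ κ (Sum.inl (2, p)) < 3 / 2 := fun p => by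
    have := sb p.1 p.2; have := s3a; have := s3b
    rw [k2, div_lt_iff₀ (sq _ _), lt_div_iff₀ (sq _ _)]; constructor <;> nlinarith
  have b3 : ∀ j, 0 < κ (Sum.inr (0, j)) ∧ κ (Sum.inr (0, j)) < 65 / 100 := fun j => by
    have := x1 j; rw [k3]; constructor <;> linarith
  have b4 : ∀ j, 3 / 2 < κ (Sum.inr (1, j)) := fun j => by
    have := x1 j; rw [k4, lt_div_iff₀ (sub_pos.2 (xq j))]; linarith
  have sI : ∀ p ∈ L, ∀ p' ∈ L, ss (x p.1) (x p.2) = ss (x p'.1) (x p'.2) → p = p' := by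
    intro p hp p' hp' e
    rw [mL] at hp hp'
    have := x5 p.1 (by omega) p.2 (by omega) p'.1 (by omega) p'.2 (by omega) hp.2.2 hp'.2.2 e
    exact Prod.ext this.1 this.2
  have sw : ∀ p ∈ L, p.swap ∈ L := fun p hp => by
    rw [mL] at hp ⊢; exact ⟨hp.2.1, hp.1, hp.2.2.symm⟩
  have κi : ∀ e ∈ J, ∀ e' ∈ J, κ e = κ e' → e = e' := by
    intro e he e' he' h
    rcases cs e with ⟨p, rfl⟩ | ⟨p, rfl⟩ | ⟨p, rfl⟩ | ⟨p, rfl⟩ | ⟨p, rfl⟩ <;>
      rcases cs e' with ⟨q, rfl⟩ | ⟨q, rfl⟩ | ⟨q, rfl⟩ | ⟨q, rfl⟩ | ⟨q, rfl⟩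
    · rw [k0, k0, neg_inj] at h
      rw [sI p ((mJ1 _ _).1 he) q ((mJ1 _ _).1 he') h]
    · linarith [b0 p, b1 q]
    · linarith [b0 p, b2 q]
    · linarith [b0 p, b3 q]
    · linarith [b0 p, b4 q]
    · linarith [b1 p, b0 q]
    · rw [k1, k1, div_eq_div_iff (sp _ _).ne' (sp _ _).ne'] at h
      rw [Prod.swap_injective (sI _ (sw p ((mJ1 _ _).1 he)) _ (sw q ((mJ1 _ _).1 he'))
        (by simp only [Prod.fst_swap, Prod.snd_swap]; linarith))]
    · linarith [b1 p, b2 q]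
    · linarith [b1 p, b3 q]
    · linarith [b1 p, b4 q]
    · linarith [b2 p, b0 q]
    · linarith [b2 p, b1 q]
    · rw [k2, k2, div_eq_div_iff (sq _ _).ne' (sq _ _).ne'] at h
      rw [sI p ((mJ1 _ _).1 he) q ((mJ1 _ _).1 he')
        (by linear_combination (-1 / 4) * h - (1 / 4) * (ss (x p.1) (x p.2) - ss (x q.1) (x q.2)) * s3)]
    · linarith [b2 p, b3 q]
    · linarith [b2 p, b4 q]
    · linarith [b3 p, b0 q]
    · linarith [b3 p, b1 q]
    · linarith [b3 p, b2 q]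
    · rw [k3, k3] at h
      rw [xi p ((mJ2 _ _).1 he) q ((mJ2 _ _).1 he') (by linarith)]
    · linarith [b3 p, b4 q]
    · linarith [b4 p, b0 q]
    · linarith [b4 p, b1 q]
    · linarith [b4 p, b2 q]
    · linarith [b4 p, b3 q]
    · rw [k4, k4, div_eq_div_iff (sub_pos.2 (xq _)).ne' (sub_pos.2 (xq _)).ne'] at h
      rw [xi p ((mJ2 _ _).1 he) q ((mJ2 _ _).1 he') (by linarith)]
  have qd : ∀ e, 0 ≤ (f e).re ∧ 0 ≤ (f e).im ∧ 0 < (g e).re ∧ 0 < (g e).im := by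
    intro e
    rcases cs e with ⟨p, rfl⟩ | ⟨p, rfl⟩ | ⟨p, rfl⟩ | ⟨j, rfl⟩ | ⟨j, rfl⟩ <;>
      simp [f0, f1, f2, f3, f4, g0, g1, w1, w3, (xp _).le]
  obtain ⟨V, G, a1, a2, a3, a4, a5, a6, a7, a8, a9⟩ := planar1 ((univ : Finset (Fin 4)) ×ˢ J)
    (fun z => r4 z.1 * f z.2) (fun z => r4 z.1 * g z.2)
    (by
      intro z _ e
      obtain ⟨l, h1, h2⟩ := hκ z.2
      rw [mul_left_cancel₀ (r4_ne _) e, sub_self] at h2
      have := congrArg Complex.im h2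
      simp at this
      exact h1 this.symm)
    (by
      rintro ⟨k, e⟩ he ⟨k', e'⟩ he' u v huv c1 c2 c3 c4
      obtain ⟨u1, d1, rfl⟩ := rot_seg c1
      obtain ⟨v1, d2, rfl⟩ := rot_seg c2
      obtain ⟨u2, d3, h3⟩ := rot_seg c3
      obtain ⟨v2, d4, h4⟩ := rot_seg c4
      simp only at *
      have n1 : u1 ≠ v1 := fun h => huv (by rw [h])
      have n2 : u2 ≠ v2 := fun h => huv (by rw [h3, h4, h])
      have m1 := mid_quad n1 d1 d2 (qd e).1 (qd e).2.1 (qd e).2.2.1 (qd e).2.2.2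
      have m2 := mid_quad n2 d3 d4 (qd e').1 (qd e').2.1 (qd e').2.2.1 (qd e').2.2.2
      obtain rfl : k = k' := r4_quad m1.1 m1.2.le m2.1 m2.2.le (by rw [mul_add, mul_add, h3, h4])
      obtain rfl := mul_left_cancel₀ (r4_ne _) h3
      obtain rfl := mul_left_cancel₀ (r4_ne _) h4
      obtain ⟨l, -, h2⟩ := hκ e
      obtain ⟨l', h1', h2'⟩ := hκ e'
      rw [κi e (mem_product.1 he).2 e' (mem_product.1 he').2 (kap_eq h1' h2 h2' n1 d1 d2 d3 d4)])
  have mI : ∀ (k : Fin 4) e, e ∈ J → (k, e) ∈ (univ : Finset (Fin 4)) ×ˢ J :=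
    fun k e he => mem_product.2 ⟨mem_univ _, he⟩
  have rA : ∀ (k : Fin 4), ∀ e ∈ J, G.Reachable (r4 k * f e) (r4 k * (1 + I)) := by
    intro k e he
    rcases cs e with ⟨p, rfl⟩ | ⟨p, rfl⟩ | ⟨p, rfl⟩ | ⟨j, rfl⟩ | ⟨j, rfl⟩
    · have := a9 _ (mI k _ ((mJ2 0 p.1).2 ((mL p).1 ((mJ1 _ _).1 he)).1))
      rwa [f3, g1, ← f0] at this
    · have := a9 _ (mI k _ ((mJ2 1 p.2).2 ((mL p).1 ((mJ1 _ _).1 he)).2.1))
      rwa [f4, g1, ← f1] at this
    · rw [f2]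
    · have := a9 _ (mI k _ he)
      rwa [g1] at this
    · have := a9 _ (mI k _ he)
      rwa [g1] at this
  have rB : ∀ k : Fin 4, G.Reachable (r4 k * (1 + I)) (r4 (k + 1) * (1 + I)) := by
    intro k
    have h1 := rA k _ ((mJ2 1 0).2 (by omega))
    have h2 := rA (k + 1) _ ((mJ2 0 0).2 (by omega))
    rw [f4, ← mul_assoc, ← r4_succ] at h1
    rw [f3] at h2
    exact h1.symm.trans h2
  have rC : ∀ k : Fin 4, G.Reachable (r4 0 * (1 + I)) (r4 k * (1 + I)) := by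
    intro k
    fin_cases k
    · rfl
    · exact rB 0
    · exact (rB 0).trans (rB 1)
    · exact ((rB 0).trans (rB 1)).trans (rB 2)
  have hX : ∀ (k l : Fin 4) j, r4 k * (1 + I) ≠ r4 l * x j := fun k l j e => by
    have := congrArg norm e
    rw [norm_mul, norm_mul, r4_norm, r4_norm, one_mul, one_mul] at this
    exact (nlt (z := x j) (by simp [(xp _).le]) (by simp [xq]) (by simp) (by simp)).ne' this
  refine ⟨V, G, fun k => ?_, fun a b h => ⟨(a2 a b h).1, (a2 a b h).2.1⟩, a3, a4, ?_, ?_, ?_, ?_⟩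
  · have := (a1 _ (mI k _ ((mJ2 0 0).2 (by omega)))).2
    rwa [g1] at this
  · intro v hv hn
    constructor
    · have dX : ∀ (k : Fin 4), ∀ j < n + 2, r4 k * x j = v →
          3 ≤ (V.filter (fun w => G.Adj v w)).card := by
        intro k j hj e
        refine le_trans ?_ (a6 v hv).1
        rw [Nat.succ_le_iff, two_lt_card]
        refine ⟨(k, Sum.inr (0, j)), mem_filter.2 ⟨mI _ _ ((mJ2 _ _).2 hj), by rwa [f3]⟩,
          (k - 1, Sum.inr (1, j)), mem_filter.2 ⟨mI _ _ ((mJ2 _ _).2 hj), ?_⟩,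
          (k, Sum.inl (0, j, j - 1)), mem_filter.2 ⟨mI _ _ ((mJ1 _ _).2 ((mL _).2
            ⟨hj, by simp only; omega, Or.inl rfl⟩)), by rwa [f0]⟩, by simp, by simp, by simp⟩
        simp only
        rwa [f4, ← mul_assoc, ← r4_succ, sub_add_cancel]
      by_cases h : ∃ i ∈ (univ : Finset (Fin 4)) ×ˢ J, r4 i.1 * f i.2 = v ∨ r4 i.1 * g i.2 = v
      · obtain ⟨⟨k, e⟩, he, h | h⟩ := h <;> have he' := (mem_product.1 he).2 <;> simp only at h he'
        · rcases cs e with ⟨p, rfl⟩ | ⟨p, rfl⟩ | ⟨p, rfl⟩ | ⟨j, rfl⟩ | ⟨j, rfl⟩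
          · exact dX k _ ((mL p).1 ((mJ1 _ _).1 he')).1 (by rwa [f0] at h)
          · exact dX (k + 1) _ ((mL p).1 ((mJ1 _ _).1 he')).2.1
              (by rwa [f1, ← mul_assoc, ← r4_succ] at h)
          · exact absurd (by rwa [f2] at h) (hn k)
          · exact dX k _ ((mJ2 _ _).1 he') (by rwa [f3] at h)
          · exact dX (k + 1) _ ((mJ2 _ _).1 he') (by rwa [f4, ← mul_assoc, ← r4_succ] at h)
        · rcases e with ⟨t, p⟩ | ⟨t, j⟩
          · refine le_trans ?_ (a6 v hv).2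
            rw [Nat.succ_le_iff, two_lt_card]
            rw [g0] at h
            have hp := (mJ1 _ _).1 he'
            exact ⟨(k, Sum.inl (0, p)), mem_filter.2 ⟨mI _ _ ((mJ1 _ _).2 hp), by rwa [g0]⟩,
              (k, Sum.inl (1, p)), mem_filter.2 ⟨mI _ _ ((mJ1 _ _).2 hp), by rwa [g0]⟩,
              (k, Sum.inl (2, p)), mem_filter.2 ⟨mI _ _ ((mJ1 _ _).2 hp), by rwa [g0]⟩,
              by simp, by simp, by simp⟩
          · exact absurd (by rwa [g1] at h) (hn k)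
      · push Not at h
        exact a7 v hv h
    · rw [a5 v hv, sum_product, sum_product]
      simp only [hJ, sum_disjSum, sum_product_right, Fin.sum_univ_three, Fin.sum_univ_two, f0, f1, f2,
        f3, f4, g0, g1, hn, if_false, add_zero, sum_const_zero, ← mul_sub, un_rot (r4_norm _)]
      have z1 : ∀ k : Fin 4, ∑ p ∈ L, ((if r4 k * w p = v then r4 k * un (x p.1 - w p) else 0) +
          (if r4 k * w p = v then r4 k * un (I * x p.2 - w p) else 0) +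
          if r4 k * w p = v then r4 k * un (1 + I - w p) else 0) = 0 := by
        intro k
        refine sum_eq_zero fun p _ => ?_
        split_ifs
        · linear_combination r4 k * bal p
        · simp
      simp only [z1, sum_const_zero, add_zero, sum_add_distrib]
      have u1 : ∀ p, un (w p - x p.1) = -un (ss (x p.1) (x p.2) - I) := fun p => by
        rw [← neg_sub, un_neg, e1, un_smul (p1 p)]
      have u2 : ∀ p, un (w p - I * x p.2) = I * -un (ss (x p.2) (x p.1) + I) := fun p => by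
        rw [← neg_sub, un_neg, e2, un_smul (p2 p), mul_neg, ← un_rot (by simp)]
        congr 2
        linear_combination -I_mul_I
      have u3 : ∀ j, un (1 + I - x j) = un ((1 - x j : ℝ) + I) := fun j => by
        congr 1; push_cast; ring
      have u4 : ∀ j, un (1 + I - I * x j) = I * un ((1 - x j : ℝ) - I) := fun j => by
        rw [← un_rot (by simp)]
        congr 1; push_cast; linear_combination I_mul_I
      simp only [u1, u2, u3, u4, ← mul_assoc, ← r4_succ]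
      have sh : ∀ F : Fin 4 → ℂ, ∑ k, F (k + 1) = ∑ k, F k :=
        fun F => Equiv.sum_comp (Equiv.addRight (1 : Fin 4)) F
      rw [sh (fun k => ∑ p ∈ L,
          if r4 k * x p.2 = v then r4 k * -un (ss (x p.2) (x p.1) + I) else 0),
        sh (fun k => ∑ j ∈ range (n + 2),
          if r4 k * x j = v then r4 k * un ((1 - x j : ℝ) - I) else 0)]
      rw [← sum_add_distrib, ← sum_add_distrib, ← sum_add_distrib]
      refine sum_eq_zero fun k _ => ?_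
      have z2 : ∑ p ∈ L, (if r4 k * x p.2 = v then r4 k * -un (ss (x p.2) (x p.1) + I) else 0) =
          ∑ p ∈ L, (if r4 k * x p.1 = v then r4 k * -un (ss (x p.1) (x p.2) + I) else 0) :=
        sum_nbij' Prod.swap Prod.swap sw sw (fun _ _ => rfl) (fun _ _ => rfl) fun _ _ => rfl
      rw [z2, ← sum_add_distrib, ← sum_add_distrib, hL, sum_filter, sum_product, ← sum_add_distrib]
      refine sum_eq_zero fun i hi => ?_
      by_cases h : r4 k * x i = v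
      · simp only [if_pos h]
        have z3 : ∀ s : ℝ, r4 k * -un (s - I) + r4 k * -un (s + I) = -2 * r4 k * hh s := fun s => by
          linear_combination -r4 k * un_pair s
        have z4 : ∀ s : ℝ, r4 k * un (s + I) + r4 k * un (s - I) = 2 * r4 k * hh s := fun s => by
          linear_combination r4 k * un_pair s
        simp only [z3, z4]
        rw [← sum_filter, ← mul_sum]
        rw [mem_range] at hi
        rcases le_or_gt i n with h' | h'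
        · rw [show (range (n + 2)).filter (fun j => j = i - 1 ∨ i = j - 1) = {i - 1, i + 1} by
            ext j; simp; omega, sum_pair (by omega), ← x4 i h']
          push_cast; ring
        · obtain rfl : i = n + 1 := by omega
          rw [show (range (n + 2)).filter (fun j => j = n + 1 - 1 ∨ n + 1 = j - 1) = {n} by
            ext j; simp; omega, sum_singleton, x3]
          ring
      · simp [h]
  · intro a ha b hb
    obtain ⟨⟨k, e⟩, he, r1⟩ := a8 a ha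
    obtain ⟨⟨l, e'⟩, he', r2⟩ := a8 b hb
    exact (r1.trans ((rA k e (mem_product.1 he).2).trans (rC k).symm)).trans
      (r2.trans ((rA l e' (mem_product.1 he').2).trans (rC l).symm)).symm
  · intro k l h
    obtain ⟨-, -, ⟨m, e⟩, -, c1, c2⟩ := a2 _ _ h
    have nw : ∀ p, ‖w p‖ < ‖1 + I‖ := fun p => nlt (w1 p).le (w2 p) (w3 p).le (w4 p)
    have nx : ∀ j, ‖(x j : ℂ)‖ < ‖1 + I‖ := fun j =>
      nlt (by simp [(xp _).le]) (by simp [xq]) (by simp) (by simp)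
    have nr : ∀ (k : Fin 4) (z : ℂ), ‖r4 k * z‖ = ‖z‖ := fun k z => by
      rw [norm_mul, r4_norm, one_mul]
    have ni : ∀ z : ℂ, ‖I * z‖ = ‖z‖ := fun z => by simp
    have key : (‖f e‖ < ‖1 + I‖ ∧ ‖g e‖ ≤ ‖1 + I‖) ∨ (‖g e‖ < ‖1 + I‖ ∧ ‖f e‖ ≤ ‖1 + I‖) := by
      rcases cs e with ⟨p, rfl⟩ | ⟨p, rfl⟩ | ⟨p, rfl⟩ | ⟨j, rfl⟩ | ⟨j, rfl⟩
      · left; rw [f0, g0]; exact ⟨nx _, (nw _).le⟩
      · left; rw [f1, g0, ni]; exact ⟨nx _, (nw _).le⟩
      · right; rw [f2, g0]; exact ⟨nw _, le_rfl⟩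
      · left; rw [f3, g1]; exact ⟨nx _, le_rfl⟩
      · left; rw [f4, g1, ni]; exact ⟨nx _, le_rfl⟩
    rw [← nr m (f e), ← nr m (g e)] at key
    apply h.ne
    rcases key with ⟨h1, h2⟩ | ⟨h1, h2⟩
    · exact (ext_pt h1 h2 (nr _ _) c1).trans (ext_pt h1 h2 (nr _ _) c2).symm
    · rw [segment_symm] at c1 c2
      exact (ext_pt h1 h2 (nr _ _) c1).trans (ext_pt h1 h2 (nr _ _) c2).symm
  · have : ((range (n + 2)).image fun j => r4 0 * x j).card = n + 2 := by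
      rw [card_image_of_injOn, card_range]
      intro i hi j hj e
      exact xi i (by simpa using hi) j (by simpa using hj)
        (by exact_mod_cast mul_left_cancel₀ (r4_ne 0) e)
    refine lt_of_lt_of_le (by omega : n < n + 2) ?_
    rw [← this]
    refine card_le_card fun v hv => ?_
    obtain ⟨j, hj, rfl⟩ := mem_image.1 hv
    refine mem_filter.2 ⟨?_, fun k => hX k 0 j⟩
    have := (a1 _ (mI 0 _ ((mJ2 0 j).2 (by simpa using hj)))).1
    rwa [f3] at this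

end Pool.Agent.H.MP_b67b84_gt
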